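import Pool.Agent.TDV.StmtsD

/-!
# Squad TDV, modules CFW and CBW: the games
-/

set_option autoImplicit false

noncomputable section

namespace Pool.Agent.TDV.H71

open Pool.Agent.Helper25TD Pool.Agent.Helper56TB

/-- the play `x` is won by player `r` in the game with payoff set `A` -/
def Win (r : ℕ) (A : Set (ℕ → Bool)) (x : ℕ → Bool) : Prop := if r = 0 then x ∈ A else x ∉ A

/-- player `r` has a winning strategy -/
def WinsP (r : ℕ) (A : Set (ℕ → Bool)) : Prop :=
  ∃ σ : List Bool → Bool, ∀ x : ℕ → Bool, (∀ n, n % 2 = r → x n = σ (pre x n)) → Win r A x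

theorem winsI_iff (A : Set (ℕ → Bool)) : WinsI A ↔ WinsP 0 A := by
  constructor
  · rintro ⟨σ, hσ⟩
    refine ⟨σ, fun x hx => ?_⟩
    unfold Win
    rw [if_pos rfl]
    exact hσ x fun n => hx (2 * n) (by omega)
  · rintro ⟨σ, hσ⟩
    refine ⟨σ, fun x hx => ?_⟩
    have h := hσ x fun l hl => by
      obtain ⟨n, rfl⟩ : ∃ n, l = 2 * n := ⟨l / 2, by omega⟩
      exact hx n
    unfold Win at h
    rwa [if_pos rfl] at h

theorem winsII_iff (A : Set (ℕ → Bool)) : WinsII A ↔ WinsP 1 A := by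
  constructor
  · rintro ⟨σ, hσ⟩
    refine ⟨σ, fun x hx => ?_⟩
    unfold Win
    rw [if_neg (by norm_num)]
    exact hσ x fun n => hx (2 * n + 1) (by omega)
  · rintro ⟨σ, hσ⟩
    refine ⟨σ, fun x hx => ?_⟩
    have h := hσ x fun l hl => by
      obtain ⟨n, rfl⟩ : ∃ n, l = 2 * n + 1 := ⟨l / 2, by omega⟩
      exact hx n
    unfold Win at h
    rwa [if_neg (by norm_num)] at h

variable {g : ℕ → Equiv.Perm ℕ} {p : ℕ → ℕ} {c : ℕ → Bool}

theorem win_one {B : Set (ℕ → Bool)} {r : ℕ} (hr : r < 2) {x : ℕ → Bool} (h : RR g p c r x)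
    (h' : ¬ RR g p c (1 - r) x ∨ Win r B (DD g p c x)) : Win r (AB g p c B) x := by
  interval_cases r
  · unfold Win at h' ⊢
    rw [if_pos rfl] at h' ⊢
    exact ⟨h, h'⟩
  · unfold Win at h' ⊢
    rw [if_neg (by norm_num)] at h' ⊢
    rintro ⟨h1, h2⟩
    rcases h' with h3 | h3
    · exact h3 h1
    · rcases h2 with h2 | h2
      · exact h2 h
      · exact h3 h2

theorem win_two {B : Set (ℕ → Bool)} {r : ℕ} (hr : r < 2) {x : ℕ → Bool}
    (h : RR g p c (1 - r) x) (h' : Win r (AB g p c B) x) :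
    RR g p c r x ∧ Win r B (DD g p c x) := by
  interval_cases r
  · unfold Win at h' ⊢
    rw [if_pos rfl] at h' ⊢
    refine ⟨h'.1, ?_⟩
    rcases h'.2 with h2 | h2
    · exact absurd h h2
    · exact h2
  · unfold Win at h' ⊢
    rw [if_neg (by norm_num)] at h' ⊢
    have h0 : RR g p c 0 x := h
    constructor
    · by_contra h1
      exact h' ⟨h0, Or.inl h1⟩
    · intro h1
      exact h' ⟨h0, Or.inr h1⟩

theorem win_tail {B : Set (ℕ → Bool)} (hB : Tail B) {r : ℕ} (hr : r < 2) {x y : ℕ → Bool}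
    (h : ∃ m, ∀ n ≥ m, x n = y n) (hx : Win r B x) : Win r B y := by
  interval_cases r
  · unfold Win at hx ⊢
    rw [if_pos rfl] at hx ⊢
    exact hB x y h hx
  · unfold Win at hx ⊢
    rw [if_neg (by norm_num)] at hx ⊢
    obtain ⟨m, hm⟩ := h
    exact fun hy => hx (hB y x ⟨m, fun n hn => (hm n hn).symm⟩ hy)

theorem dat_mono (hd : Dat g p c) : StrictMono p := strictMono_nat_of_lt_succ hd.lt

theorem dat_ge (hd : Dat g p c) (j : ℕ) : j ≤ p j := (dat_mono hd).id_le j

theorem getD_pre (x : ℕ → Bool) {n i : ℕ} (h : i < n) : (pre x n).getD i false = x i := by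
  rw [List.getD_eq_getElem _ _ (by rw [length_pre]; exact h)]
  simp [pre]

/-- the virtual play: player `h` is honest, `G` guesses the copy of the other player -/
def vr (g : ℕ → Equiv.Perm ℕ) (p : ℕ → ℕ) (h : ℕ) (G : List Bool → ℕ) (x : ℕ → Bool) : ℕ → Bool :=
  fun j => if j % 2 = h then x (p j) else
    (pre x (p (j + 1))).getD (g (G (pre x (p (j + 1)))) (p j)) false

theorem copy_ix {r : ℕ} {x : ℕ → Bool} (h : RR g p c r x) : Copy g p c r x (ix g p c r x) := by
  classical
  unfold ix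
  have h' : ∃ i, Copy g p c r x i := h
  rw [dif_pos h']
  exact Nat.find_spec h'

theorem copy_one {h i0 : ℕ} (hi0 : g i0 = 1) {x : ℕ → Bool}
    (hx : ∀ n, n % 2 = h → n ∉ Set.range p → x n = c n) : Copy g p c h x i0 := by
  refine ⟨0, fun n _ h1 h2 => ?_⟩
  rw [hi0]
  exact hx n h1 h2

/-- the decoded play is the virtual play, up to finitely many moves -/
theorem decode (hcun : CunStmt) (hg : CG g) (hd : Dat g p c) {h : ℕ} (hh : h < 2)
    {G : List Bool → ℕ} {x : ℕ → Bool} (hx : ∀ n, n % 2 = h → n ∉ Set.range p → x n = c n)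
    (hG : ∃ i, Copy g p c (1 - h) x i ∧ ∃ m, ∀ n ≥ m, G (pre x n) = i) :
    ∃ m, ∀ j ≥ m, vr g p h G x j = DD g p c x j := by
  obtain ⟨i0, hi0⟩ := hg.one
  have hc0 : Copy g p c h x i0 := copy_one hi0 hx
  have hcx : Copy g p c h x (ix g p c h x) := copy_ix ⟨i0, hc0⟩
  obtain ⟨i, hi, m1, hm1⟩ := hG
  have hix : Copy g p c (1 - h) x (ix g p c (1 - h) x) := copy_ix ⟨i, hi⟩
  obtain ⟨m2, hm2⟩ := hcun g p c hg hd h hh x i0 (ix g p c h x) i hc0 hcx hi
  have h1h : 1 - (1 - h) = h := by omega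
  obtain ⟨m3, hm3⟩ := hcun g p c hg hd (1 - h) (by omega) x i (ix g p c (1 - h) x) i0 hi hix
    (by rw [h1h]; exact hc0)
  refine ⟨max (max m1 i) (max m2 m3), fun j hj => ?_⟩
  have hj1 : m1 ≤ j := le_trans (le_trans (le_max_left _ _) (le_max_left _ _)) hj
  have hj2 : i ≤ j := le_trans (le_trans (le_max_right _ _) (le_max_left _ _)) hj
  have hj3 : m2 ≤ j := le_trans (le_trans (le_max_left _ _) (le_max_right _ _)) hj
  have hj4 : m3 ≤ j := le_trans (le_trans (le_max_right _ _) (le_max_right _ _)) hj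
  have hpj := dat_ge hd j
  have hpar := hd.par j
  by_cases hjh : j % 2 = h
  · have h2 := hm2 (p j) (by omega) (by omega)
    unfold vr DD
    rw [if_pos hjh, hjh, ← h2, hi0]
    rfl
  · have hjh' : j % 2 = 1 - h := by omega
    have h2 := hm3 (p j) (by omega) (by omega)
    have h3 : G (pre x (p (j + 1))) = i := hm1 _ (le_trans hj1 (le_trans hpj (hd.lt j).le))
    unfold vr DD
    rw [if_neg hjh, hjh', ← h2, h3, getD_pre x (hd.fast j i hj2)]

open Classical in
/-- the label or the move -/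
def yv (p : ℕ → ℕ) (c : ℕ → Bool) (w : ℕ → Bool) (n : ℕ) : Bool :=
  if h : ∃ j, p j = n then w (Nat.find h) else c n

theorem yv_free (hd : Dat g p c) (w : ℕ → Bool) (j : ℕ) : yv p c w (p j) = w j := by
  classical
  unfold yv
  have h : ∃ j', p j' = p j := ⟨j, rfl⟩
  rw [dif_pos h, (dat_mono hd).injective (Nat.find_spec h)]

theorem yv_not {w : ℕ → Bool} {n : ℕ} (h : n ∉ Set.range p) : yv p c w n = c n := by
  classical
  unfold yv
  rw [dif_neg]
  rintro ⟨j, hj⟩
  exact h ⟨j, hj⟩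

theorem yv_congr (hd : Dat g p c) {w w' : ℕ → Bool} {n : ℕ} (h : ∀ j, p j = n → w j = w' j) :
    yv p c w n = yv p c w' n := by
  by_cases hn : n ∈ Set.range p
  · obtain ⟨j, rfl⟩ := hn
    rw [yv_free hd, yv_free hd]
    exact h j rfl
  · rw [yv_not hn, yv_not hn]

/-- CFW for player `r` -/
theorem cfw_aux (hcun : CunStmt) (hcgs : CgsStmt) (hg : CG g) (hd : Dat g p c)
    {B : Set (ℕ → Bool)} (hB : Tail B) {r : ℕ} (hr : r < 2) (h : WinsP r B) :
    WinsP r (AB g p c B) := by
  classical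
  obtain ⟨σ, hσ⟩ := h
  obtain ⟨G, hG⟩ := hcgs g p c (1 - r)
  let vl' : List Bool → ℕ → Bool := fun l j => if j % 2 = r then l.getD (p j) false else
    (l.take (p (j + 1))).getD (g (G (l.take (p (j + 1)))) (p j)) false
  let σ' : List Bool → Bool := fun l => if h : ∃ i, p i = l.length then
    σ ((List.range (Nat.find h)).map (vl' l)) else c l.length
  refine ⟨σ', fun x hx => ?_⟩
  have hlab : ∀ n, n % 2 = r → n ∉ Set.range p → x n = c n := by
    intro n hn hnp
    rw [hx n hn]
    change (if h : ∃ i, p i = (pre x n).length then _ else _) = _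
    rw [dif_neg, length_pre]
    rw [length_pre]
    rintro ⟨i, hi⟩
    exact hnp ⟨i, hi⟩
  have hvl : ∀ i, ∀ j < i, vl' (pre x (p i)) j = vr g p r G x j := by
    intro i j hj
    have h1 : p (j + 1) ≤ p i := (dat_mono hd).monotone hj
    have h2 : p j < p i := (dat_mono hd) hj
    change (if j % 2 = r then _ else _) = (if j % 2 = r then _ else _)
    rw [take_pre x h1, getD_pre x h2]
  have hcon : ∀ i, i % 2 = r → vr g p r G x i = σ (pre (vr g p r G x) i) := by
    intro i hi
    have h1 : vr g p r G x i = x (p i) := if_pos hi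
    have h2 : p i % 2 = r := by rw [hd.par, hi]
    have h3 : ∃ i', p i' = (pre x (p i)).length := ⟨i, by rw [length_pre]⟩
    have h4 : Nat.find h3 = i := by
      have h5 := (Nat.find_spec h3).trans (length_pre x (p i))
      exact (dat_mono hd).injective h5
    rw [h1, hx (p i) h2]
    change (if h : ∃ i', p i' = (pre x (p i)).length then
      σ ((List.range (Nat.find h)).map (vl' (pre x (p i)))) else _) = _
    rw [dif_pos h3, h4]
    congr 1
    refine List.map_congr_left fun j hj => ?_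
    exact hvl i j (List.mem_range.1 hj)
  have hw := hσ (vr g p r G x) hcon
  obtain ⟨i0, hi0⟩ := hg.one
  refine win_one hr ⟨i0, copy_one hi0 hlab⟩ ?_
  by_cases hR : RR g p c (1 - r) x
  · right
    exact win_tail hB hr (decode hcun hg hd hr hlab (hG x hR)) hw
  · exact Or.inl hR

/-- CFW -/
theorem cfw (hcun : CunStmt) (hcgs : CgsStmt) : CfwStmt := by
  intro g p c hg hd B hB
  rw [winsI_iff, winsI_iff, winsII_iff, winsII_iff]
  exact ⟨cfw_aux hcun hcgs hg hd hB (by norm_num), cfw_aux hcun hcgs hg hd hB (by norm_num)⟩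

/-- the play of `τ` against the honest opponent with the moves `w` -/
def PX (p : ℕ → ℕ) (c : ℕ → Bool) (r : ℕ) (τ : List Bool → Bool) (w : ℕ → Bool) : ℕ → Bool :=
  play r τ fun k => yv p c w (2 * k + (1 - r))

theorem px_ne {r : ℕ} (hr : r < 2) {τ : List Bool → Bool} {w : ℕ → Bool} {n : ℕ}
    (h : n % 2 ≠ r) : PX p c r τ w n = yv p c w n := by
  unfold PX
  rw [play_ne r τ _ h]
  congr 1
  omega

theorem px_congr (hd : Dat g p c) {r : ℕ} (hr : r < 2) {τ : List Bool → Bool} {w w' : ℕ → Bool}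
    (N : ℕ) (h : ∀ j, j % 2 ≠ r → p j < N → w j = w' j) :
    pre (PX p c r τ w) N = pre (PX p c r τ w') N := by
  induction N with
  | zero => rfl
  | succ N ih =>
    have ih' := ih fun j h1 h2 => h j h1 (by omega)
    rw [pre_succ, pre_succ, ih']
    congr 2
    by_cases hN : N % 2 = r
    · have h1 : PX p c r τ w N = τ (pre (PX p c r τ w) N) := play_eq r τ _ hN
      have h2 : PX p c r τ w' N = τ (pre (PX p c r τ w') N) := play_eq r τ _ hN
      rw [h1, h2, ih']
    · rw [px_ne hr hN, px_ne hr hN]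
      refine yv_congr hd fun j hj => h j ?_ (by omega)
      rw [← hj, hd.par] at hN
      exact hN

/-- CBW for player `r` -/
theorem cbw_aux (hcun : CunStmt) (hcgs : CgsStmt) (hg : CG g) (hd : Dat g p c)
    {B : Set (ℕ → Bool)} (hB : Tail B) {r : ℕ} (hr : r < 2) (h : WinsP r (AB g p c B)) :
    WinsP r B := by
  classical
  obtain ⟨τ, hτ⟩ := h
  obtain ⟨G, hG⟩ := hcgs g p c r
  let wl : List Bool → ℕ → Bool := fun l j => l.getD j false
  refine ⟨fun l => vr g p (1 - r) G (PX p c r τ (wl l)) l.length, fun w hw => ?_⟩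
  have hne : ∀ j, j % 2 = r → j % 2 ≠ 1 - r := fun j hj => by omega
  have hv : vr g p (1 - r) G (PX p c r τ w) = w := by
    funext j
    by_cases hj : j % 2 = r
    · rw [hw j hj]
      have h1 : pre (PX p c r τ w) (p (j + 1)) = pre (PX p c r τ (wl (pre w j))) (p (j + 1)) := by
        refine px_congr hd hr _ fun i hi hpi => ?_
        have h2 : i < j + 1 := (dat_mono hd).lt_iff_lt.1 hpi
        have h3 : i < j := by
          rcases Nat.lt_succ_iff_lt_or_eq.1 h2 with h4 | h4
          · exact h4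
          · rw [h4] at hi
            exact absurd hj hi
        exact (getD_pre w h3).symm
      simp only [length_pre]
      unfold vr
      rw [if_neg (hne j hj), if_neg (hne j hj), h1]
    · have h1 : j % 2 = 1 - r := by omega
      unfold vr
      rw [if_pos h1, px_ne hr (by rw [hd.par]; exact hj), yv_free hd]
  have hlab : ∀ n, n % 2 = 1 - r → n ∉ Set.range p → PX p c r τ w n = c n := by
    intro n hn hnp
    rw [px_ne hr (by omega), yv_not hnp]
  obtain ⟨i0, hi0⟩ := hg.one
  have hR : RR g p c (1 - r) (PX p c r τ w) := ⟨i0, copy_one hi0 hlab⟩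
  obtain ⟨h1, h2⟩ := win_two hr hR (hτ (PX p c r τ w) fun n hn => play_eq r τ _ hn)
  have h1r : 1 - (1 - r) = r := by omega
  have h3 := decode hcun hg hd (h := 1 - r) (by omega) (G := G) hlab (by rw [h1r]; exact hG _ h1)
  rw [hv] at h3
  obtain ⟨m, hm⟩ := h3
  exact win_tail hB hr ⟨m, fun n hn => (hm n hn).symm⟩ h2

/-- CBW -/
theorem cbw (hcun : CunStmt) (hcgs : CgsStmt) : CbwStmt := by
  intro g p c hg hd B hB
  rw [winsI_iff, winsI_iff, winsII_iff, winsII_iff]
  exact ⟨cbw_aux hcun hcgs hg hd hB (by norm_num), cbw_aux hcun hcgs hg hd hB (by norm_num)⟩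

end Pool.Agent.TDV.H71
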