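import Pool.Agent.TDV.Stmts

/-!
# Squad TDV, module INV: the inversion
-/

set_option autoImplicit false

noncomputable section

namespace Pool.Agent.TDV.H71

open Pool.Agent.Helper25TD Pool.Agent.Helper56TB

/-- INV -/
theorem inv (hcst : CstStmt) (hdec : DecStmt) (hlmp : LmpStmt) : InvStmt := by
  intro z
  obtain ⟨d, hd⟩ := hcst z
  refine ⟨d, fun w => ?_⟩
  obtain ⟨y, h1, h2, h3⟩ := hd w
  refine ⟨y, ?_, h2, ?_⟩
  · have h4 : Primrec fun n : ℕ => 2 * n := Primrec.nat_mul.comp (Primrec.const 2) Primrec.id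
    have h5 := TLE.sub (x := y) h4
    have h6 : (fun n => y (2 * n)) = z := funext h1
    rwa [h6] at h5
  · refine hlmp y w (fun q => db q.1.2 q.2 q.1.1.length) ?_ fun n => ?_
    · exact hdec.comp (Primrec.pair (Primrec.pair (Primrec.snd.comp Primrec.fst) Primrec.snd)
        (Primrec.list_length.comp (Primrec.fst.comp Primrec.fst)))
    · rw [h3 n]
      simp only [length_pre]

end Pool.Agent.TDV.H71
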