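import Pool.Agent.Helper31_TDV.Cun
import Pool.Agent.Helper71_TDV.Com
import Pool.Agent.Helper75_TDV.Csq

/-!
# Squad TDV: groups without doubling pairs (generalization of the commuting case)

The data of the coding and the uniqueness of copies.
-/

set_option autoImplicit false

noncomputable section

namespace Pool.Agent.TDV

/-- The pair `(a, b)` of permutations is doubling on the residue class `r` modulo two: `a` and `b`
map almost all of the class into the class, and `a n = b n'` is possible only for `n = n'` (up to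
finitely many exceptions, for `n`, `n'` in the class). -/
def Dbl (r : ℕ) (a b : Equiv.Perm ℕ) : Prop :=
  (∃ m, ∀ n ≥ m, n % 2 = r → a n % 2 = r) ∧ (∃ m, ∀ n ≥ m, n % 2 = r → b n % 2 = r) ∧
    ∃ m, ∀ n ≥ m, ∀ n', n % 2 = r → n' % 2 = r → a n = b n' → n = n'

/-- No residue class modulo two is, up to a finite set, covered by finitely many sets
`{n | a n ≠ b n}`, where `(a, b)` is a pair of members of `G` which is doubling on the class. -/
def NoDoubling (G : Set (Equiv.Perm ℕ)) : Prop :=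
  ∀ r < 2, ∀ L : Finset (Equiv.Perm ℕ × Equiv.Perm ℕ),
    (∀ q ∈ L, q.1 ∈ G ∧ q.2 ∈ G ∧ Dbl r q.1 q.2) →
      ∀ m, ∃ n ≥ m, n % 2 = r ∧ ∀ q ∈ L, q.1 n = q.2 n

namespace H71

/-- the copies of the labels are unique at the free positions -/
def Unq (g : ℕ → Equiv.Perm ℕ) (p : ℕ → ℕ) (c : ℕ → Bool) : Prop :=
  ∀ r < 2, ∀ (x : ℕ → Bool) (i j k : ℕ), Copy g p c r x i → Copy g p c r x j →
    Copy g p c (1 - r) x k → ∃ m, ∀ l ≥ m, l % 2 = r → g i (p l) = g j (p l)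

/-- the free positions avoid the doubling pairs -/
def Fixes (g : ℕ → Equiv.Perm ℕ) (p : ℕ → ℕ) : Prop :=
  ∀ r < 2, ∀ i j, Dbl r (g i) (g j) → ∃ m, ∀ l ≥ m, l % 2 = r → g i (p l) = g j (p l)

theorem pick2 (g : ℕ → Equiv.Perm ℕ) (hnd : NoDoubling (Set.range g)) (j B : ℕ) :
    ∃ P, B < P ∧ P % 2 = j % 2 ∧
      ∀ i ≤ j, ∀ k ≤ j, Dbl (j % 2) (g i) (g k) → g i P = g k P := by
  classical
  obtain ⟨n, hn, h1, h2⟩ := hnd (j % 2) (Nat.mod_lt _ (by norm_num))
    (((Finset.range (j + 1) ×ˢ Finset.range (j + 1)).filter fun q =>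
      Dbl (j % 2) (g q.1) (g q.2)).image fun q => (g q.1, g q.2)) (fun q hq => by
        obtain ⟨q', hq', rfl⟩ := Finset.mem_image.1 hq
        exact ⟨⟨_, rfl⟩, ⟨_, rfl⟩, (Finset.mem_filter.1 hq').2⟩) (B + 1)
  refine ⟨n, by omega, h1, fun i hi k hk hd => ?_⟩
  exact h2 (g i, g k) (Finset.mem_image.2 ⟨(i, k), Finset.mem_filter.2
    ⟨Finset.mem_product.2 ⟨Finset.mem_range.2 (by omega), Finset.mem_range.2 (by omega)⟩, hd⟩, rfl⟩)

open H75 in
theorem step2 (g : ℕ → Equiv.Perm ℕ) (hnd : NoDoubling (Set.range g)) (j k a b B : ℕ) :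
    ∃ n P B' : ℕ,
    (Inf g k a b → B < n ∧ B < g k n ∧ n % 2 = a ∧ g k n % 2 = b ∧ g k n ≠ n) ∧
    n < P ∧ g k n < P ∧ B < P ∧ P % 2 = j % 2 ∧ P ≤ B' ∧ (∀ k' ≤ j, g k' P ≤ B') ∧
    ∀ i ≤ j, ∀ k ≤ j, Dbl (j % 2) (g i) (g k) → g i P = g k P := by
  obtain ⟨n, hn⟩ := pick g k a b B
  obtain ⟨P, hP, hP2, hP3⟩ := pick2 g hnd j (B + n + g k n)
  refine ⟨n, P, P + ∑ k' ∈ Finset.range (j + 1), g k' P, hn, by omega, by omega, by omega,
    by omega, by omega, fun k' hk => ?_, hP3⟩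
  have h2 : g k' P ≤ ∑ k' ∈ Finset.range (j + 1), g k' P :=
    Finset.single_le_sum (f := fun k' => g k' P) (fun _ _ => Nat.zero_le _)
      (Finset.mem_range.2 (by omega))
  omega

open H75 Classical in
theorem csq2 (g : ℕ → Equiv.Perm ℕ) (hnd : NoDoubling (Set.range g)) :
    ∃ p c, Dat g p c ∧ Fixes g p := by
  choose n P B' h using step2 g hnd
  let b : ℕ → ℕ := fun j => Nat.rec 0 (fun j B => B' j (rk j) (ra j) (rb j) B) j
  have hb : ∀ j, b (j + 1) = B' j (rk j) (ra j) (rb j) (b j) := fun j => rfl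
  clear_value b
  obtain ⟨N, hN⟩ : ∃ N : ℕ → ℕ, N = fun j => n j (rk j) (ra j) (rb j) (b j) := ⟨_, rfl⟩
  obtain ⟨p, hp⟩ : ∃ p : ℕ → ℕ, p = fun j => P j (rk j) (ra j) (rb j) (b j) := ⟨_, rfl⟩
  have H : ∀ j, (Inf g (rk j) (ra j) (rb j) → b j < N j ∧ b j < g (rk j) (N j) ∧ N j % 2 = ra j ∧
      g (rk j) (N j) % 2 = rb j ∧ g (rk j) (N j) ≠ N j) ∧ N j < p j ∧ g (rk j) (N j) < p j ∧
      b j < p j ∧ p j % 2 = j % 2 ∧ p j ≤ b (j + 1) ∧ (∀ k' ≤ j, g k' (p j) ≤ b (j + 1)) ∧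
      ∀ i ≤ j, ∀ k ≤ j, Dbl (j % 2) (g i) (g k) → g i (p j) = g k (p j) := by
    intro j
    rw [hN, hp, hb]
    exact h j (rk j) (ra j) (rb j) (b j)
  clear hN hp hb h
  have hbm : StrictMono b := strictMono_nat_of_lt_succ fun j => by
    have := H j; omega
  have hid : ∀ j, j ≤ b j := hbm.id_le
  have hlt : ∀ i j, i < j → b (i + 1) ≤ b j := fun i j hij => hbm.monotone hij
  refine ⟨p, fun x => decide (∃ j, Inf g (rk j) (ra j) (rb j) ∧ x = N j), ⟨?_, ?_, ?_, ?_⟩, ?_⟩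
  · intro i
    exact (H i).2.2.2.2.1
  · intro i
    have h1 := (H i).2.2.2.2.2.1
    have h2 := (H (i + 1)).2.2.2.1
    omega
  · intro i k hk
    have h1 := (H i).2.2.2.2.2.2.1 k hk
    have h2 := (H (i + 1)).2.2.2.1
    omega
  · intro k a ha b' hb' hinf m
    obtain ⟨j, hj, rfl, rfl, rfl⟩ := req k a b' m ha hb'
    obtain ⟨h1, h2, h3, h4, h5⟩ := (H j).1 hinf
    have h6 := (H j).2.1
    have h7 := (H j).2.2.1
    have h8 := (H j).2.2.2.2.2.1
    have hnot : ∀ y, b j < y → y < p j → y ∉ Set.range p := by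
      rintro y hy1 hy2 ⟨i, rfl⟩
      rcases lt_trichotomy i j with hij | hij | hij
      · have h9 := (H i).2.2.2.2.2.1
        have h10 := hlt i j hij
        omega
      · subst hij
        omega
      · have h9 := (H i).2.2.2.1
        have h10 := hlt j i hij
        omega
    refine ⟨N j, le_trans hj (le_trans (hid j) h1.le), h3, h4, hnot _ h1 h6, hnot _ h2 h7, ?_⟩
    have hc1 : decide (∃ i, Inf g (rk i) (ra i) (rb i) ∧ N j = N i) = true :=
      decide_eq_true ⟨j, hinf, rfl⟩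
    have hc2 : decide (∃ i, Inf g (rk i) (ra i) (rb i) ∧ g (rk j) (N j) = N i) = false := by
      refine decide_eq_false ?_
      rintro ⟨i, hi, he⟩
      rcases lt_trichotomy i j with hij | hij | hij
      · have h9 := (H i).2.1
        have h10 := (H i).2.2.2.2.2.1
        have h11 := hlt i j hij
        omega
      · subst hij
        exact h5 he
      · have h9 := ((H i).1 hi).1
        have h10 := hlt j i hij
        omega
    show decide (∃ i, Inf g (rk i) (ra i) (rb i) ∧ N j = N i) ≠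
      decide (∃ i, Inf g (rk i) (ra i) (rb i) ∧ g (rk j) (N j) = N i)
    rw [hc1, hc2]
    exact Bool.noConfusion
  · intro r _ i j hd
    refine ⟨max i j, fun l hl hlr => ?_⟩
    exact (H l).2.2.2.2.2.2.2 i (le_trans (le_max_left _ _) hl) j (le_trans (le_max_right _ _) hl)
      (by rw [hlr]; exact hd)

/-- uniqueness of copies -/
theorem unq {g : ℕ → Equiv.Perm ℕ} {p : ℕ → ℕ} {c : ℕ → Bool}
    (hmul : ∀ i j, ∃ k, g k = g i * g j) (hinv : ∀ i, ∃ k, g k = (g i)⁻¹)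
    (hd : Dat g p c) (hf : Fixes g p) : Unq g p c := by
  intro r hr x i j k ⟨mi, hi⟩ ⟨mj, hj⟩ ⟨mk, hk⟩
  -- the quotients
  have hq : ∀ s t : ℕ, ∃ q, ∀ n, g s (g q n) = g t n := by
    intro s t
    obtain ⟨s', hs'⟩ := hinv s
    obtain ⟨q, hq⟩ := hmul s' t
    refine ⟨q, fun n => ?_⟩
    rw [hq, hs', Equiv.Perm.mul_apply]
    exact Equiv.apply_symm_apply (g s) (g t n)
  obtain ⟨u, hu⟩ := hq j i
  obtain ⟨a, ha⟩ := hq k i
  obtain ⟨b, hb⟩ := hq k j
  -- step 1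
  have h1 : ∃ m, ∀ n ≥ m, n % 2 = r → g u n % 2 = r → g u n = n := by
    by_contra hcon
    push Not at hcon
    obtain ⟨M, hM⟩ := H31.perm_large (g u) mj
    obtain ⟨n, hn, e1, e2, e3, e4, e5⟩ := hd.gen u r hr r hr
      (fun m => by
        obtain ⟨n, hn, h1, h2, h3⟩ := hcon m
        exact ⟨n, hn, h1, h2, h3⟩) (max mi M)
    apply e5
    rw [← hi n (le_trans (le_max_left _ _) hn) e1 e3,
      ← hj (g u n) (hM n (le_trans (le_max_right _ _) hn)) e2 e4, hu]
  -- step 2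
  have h2 : ∀ s a mi, (∀ n ≥ mi, n % 2 = r → n ∉ Set.range p → x (g s n) = c n) →
      (∀ n, g k (g a n) = g s n) → ∃ m, ∀ n ≥ m, n % 2 = r → g a n % 2 = r := by
    intro s a mi hi ha
    by_contra hcon
    push Not at hcon
    obtain ⟨M, hM⟩ := H31.perm_large (g a) mk
    obtain ⟨n, hn, e1, e2, e3, e4, e5⟩ := hd.gen a r hr (1 - r) (by omega)
      (fun m => by
        obtain ⟨n, hn, h1, h2⟩ := hcon m
        refine ⟨n, hn, h1, by omega, ?_⟩
        intro h
        rw [h] at h2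
        exact h2 h1) (max mi M)
    apply e5
    rw [← hi n (le_trans (le_max_left _ _) hn) e1 e3,
      ← hk (g a n) (hM n (le_trans (le_max_right _ _) hn)) e2 e4, ha]
  obtain ⟨m1, h1⟩ := h1
  have hdbl : Dbl r (g a) (g b) := by
    refine ⟨h2 i a mi hi ha, h2 j b mj hj hb, m1, fun n hn n' hnr hnr' he => ?_⟩
    have e1 : g u n = n' := by
      apply (g j).injective
      rw [hu, ← ha, ← hb, he]
    rw [← e1] at hnr' ⊢
    exact (h1 n hn hnr hnr').symm
  obtain ⟨m, hm⟩ := hf r hr a b hdbl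
  refine ⟨m, fun l hl hlr => ?_⟩
  rw [← ha, ← hb, hm l hl hlr]

end H71

end Pool.Agent.TDV
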