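import Pool.Agent.Helper69_TDV.Cfi
import Pool.Agent.Helper69_TDV.Civ
import Pool.Agent.Helper71_TDV.Nd
import Pool.Agent.Helper90_TDV.Cgs

/-!
# Squad TDV: groups without doubling pairs: invariance and the games
-/

set_option autoImplicit false

noncomputable section

namespace Pool.Agent.TDV.H71

open Pool.Agent.Helper25TD Pool.Agent.Helper56TB

variable {g : ℕ → Equiv.Perm ℕ} {p : ℕ → ℕ} {c : ℕ → Bool}

theorem rr_iff2 (hmul : ∀ i j, ∃ k, g k = g i * g j) (hinv : ∀ i, ∃ k, g k = (g i)⁻¹)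
    {r k : ℕ} {x : ℕ → Bool} : RR g p c r (fun n => x (g k n)) ↔ RR g p c r x := by
  constructor
  · rintro ⟨i, hi⟩
    obtain ⟨i', hi'⟩ := hmul k i
    exact ⟨i', (H69.copy_iff hi').1 hi⟩
  · rintro ⟨i, hi⟩
    obtain ⟨a, ha⟩ := hinv k
    obtain ⟨i', hi'⟩ := hmul a i
    refine ⟨i', (H69.copy_iff (i' := i) ?_).2 hi⟩
    rw [hi', ha, mul_inv_cancel_left]

/-- the coded set is invariant -/
theorem civ2 (hmul : ∀ i j, ∃ k, g k = g i * g j) (hinv : ∀ i, ∃ k, g k = (g i)⁻¹)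
    (hu : Unq g p c) {B : Set (ℕ → Bool)} (hB : Tail B) (k : ℕ) (x : ℕ → Bool) :
    x ∈ AB g p c B ↔ (fun n => x (g k n)) ∈ AB g p c B := by
  have r0 : RR g p c 0 (fun n => x (g k n)) ↔ RR g p c 0 x := rr_iff2 hmul hinv
  have r1 : RR g p c 1 (fun n => x (g k n)) ↔ RR g p c 1 x := rr_iff2 hmul hinv
  have key : RR g p c 0 x → RR g p c 1 x →
      (DD g p c x ∈ B ↔ DD g p c (fun n => x (g k n)) ∈ B) := by
    intro h0 h1
    have hr : ∀ r < 2, ∃ m, ∀ l ≥ m, l % 2 = r →
        g k (g (ix g p c r (fun n => x (g k n))) (p l)) = g (ix g p c r x) (p l) := by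
      intro r hr
      have hx : RR g p c r x := by interval_cases r <;> assumption
      have hx' : RR g p c (1 - r) x := by interval_cases r <;> assumption
      obtain ⟨k', hk'⟩ := hx'
      obtain ⟨i', hi'⟩ := hmul k (ix g p c r (fun n => x (g k n)))
      have h1' := (H69.copy_iff hi').1 (H69.copy_ix ((rr_iff2 hmul hinv).2 hx))
      obtain ⟨m, hm⟩ := hu r hr x i' _ k' h1' (H69.copy_ix hx) hk'
      refine ⟨m, fun l hl hl2 => ?_⟩
      have := hm l hl hl2
      rwa [hi', Equiv.Perm.mul_apply] at this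
    obtain ⟨m0, hm0⟩ := hr 0 (by norm_num)
    obtain ⟨m1, hm1⟩ := hr 1 (by norm_num)
    have heq : ∀ j ≥ max m0 m1, DD g p c x j = DD g p c (fun n => x (g k n)) j := by
      intro j hj
      unfold DD
      refine congrArg x ?_
      symm
      rcases Nat.mod_two_eq_zero_or_one j with h | h
      · rw [h]; exact hm0 j (le_trans (le_max_left _ _) hj) h
      · rw [h]; exact hm1 j (le_trans (le_max_right _ _) hj) h
    exact ⟨hB _ _ ⟨_, heq⟩, hB _ _ ⟨_, fun n hn => (heq n hn).symm⟩⟩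
  unfold AB
  simp only [Set.mem_ofPred_eq, r0, r1]
  constructor
  · rintro ⟨h0, h⟩
    refine ⟨h0, ?_⟩
    by_cases h1 : RR g p c 1 x
    · exact Or.inr ((key h0 h1).1 (h.resolve_left (fun h' => h' h1)))
    · exact Or.inl h1
  · rintro ⟨h0, h⟩
    refine ⟨h0, ?_⟩
    by_cases h1 : RR g p c 1 x
    · exact Or.inr ((key h0 h1).2 (h.resolve_left (fun h' => h' h1)))
    · exact Or.inl h1

/-- the decoded play is the virtual play, up to finitely many moves -/
theorem decode2 (hone : ∃ k, g k = 1) (hu : Unq g p c) (hd : Dat g p c) {h : ℕ} (hh : h < 2)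
    {G : List Bool → ℕ} {x : ℕ → Bool} (hx : ∀ n, n % 2 = h → n ∉ Set.range p → x n = c n)
    (hG : ∃ i, Copy g p c (1 - h) x i ∧ ∃ m, ∀ n ≥ m, G (pre x n) = i) :
    ∃ m, ∀ j ≥ m, vr g p h G x j = DD g p c x j := by
  obtain ⟨i0, hi0⟩ := hone
  have hc0 : Copy g p c h x i0 := copy_one hi0 hx
  have hcx : Copy g p c h x (ix g p c h x) := copy_ix ⟨i0, hc0⟩
  obtain ⟨i, hi, m1, hm1⟩ := hG
  have hix : Copy g p c (1 - h) x (ix g p c (1 - h) x) := copy_ix ⟨i, hi⟩
  obtain ⟨m2, hm2⟩ := hu h hh x i0 (ix g p c h x) i hc0 hcx hi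
  have h1h : 1 - (1 - h) = h := by omega
  obtain ⟨m3, hm3⟩ := hu (1 - h) (by omega) x i (ix g p c (1 - h) x) i0 hi hix
    (by rw [h1h]; exact hc0)
  refine ⟨max (max m1 i) (max m2 m3), fun j hj => ?_⟩
  have hj1 : m1 ≤ j := le_trans (le_trans (le_max_left _ _) (le_max_left _ _)) hj
  have hj2 : i ≤ j := le_trans (le_trans (le_max_right _ _) (le_max_left _ _)) hj
  have hj3 : m2 ≤ j := le_trans (le_trans (le_max_left _ _) (le_max_right _ _)) hj
  have hj4 : m3 ≤ j := le_trans (le_trans (le_max_right _ _) (le_max_right _ _)) hj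
  have hpj := dat_ge hd j
  by_cases hjh : j % 2 = h
  · have h2 := hm2 j hj3 hjh
    unfold vr DD
    rw [if_pos hjh, hjh, ← h2, hi0]
    rfl
  · have hjh' : j % 2 = 1 - h := by omega
    have h2 := hm3 j hj4 hjh'
    have h3 : G (pre x (p (j + 1))) = i := hm1 _ (le_trans hj1 (le_trans hpj (hd.lt j).le))
    unfold vr DD
    rw [if_neg hjh, hjh', ← h2, h3, getD_pre x (hd.fast j i hj2)]

/-- a strategy for the tail set gives a strategy for the coded set -/
theorem cfw2 (hcgs : CgsStmt) (hone : ∃ k, g k = 1) (hu : Unq g p c) (hd : Dat g p c)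
    {B : Set (ℕ → Bool)} (hB : Tail B) {r : ℕ} (hr : r < 2) (h : WinsP r B) :
    WinsP r (AB g p c B) := by
  classical
  obtain ⟨σ, hσ⟩ := h
  obtain ⟨G, hG⟩ := hcgs g p c (1 - r)
  let vl' : List Bool → ℕ → Bool := fun l j => if j % 2 = r then l.getD (p j) false else
    (l.take (p (j + 1))).getD (g (G (l.take (p (j + 1)))) (p j)) false
  let σ' : List Bool → Bool := fun l => if h : ∃ i, p i = l.length then
    σ ((List.range (Nat.find h)).map (vl' l)) else c l.length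
  refine ⟨σ', fun x hx => ?_⟩
  have hlab : ∀ n, n % 2 = r → n ∉ Set.range p → x n = c n := by
    intro n hn hnp
    rw [hx n hn]
    change (if h : ∃ i, p i = (pre x n).length then _ else _) = _
    rw [dif_neg, length_pre]
    rw [length_pre]
    rintro ⟨i, hi⟩
    exact hnp ⟨i, hi⟩
  have hvl : ∀ i, ∀ j < i, vl' (pre x (p i)) j = vr g p r G x j := by
    intro i j hj
    have h1 : p (j + 1) ≤ p i := (dat_mono hd).monotone hj
    have h2 : p j < p i := (dat_mono hd) hj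
    change (if j % 2 = r then _ else _) = (if j % 2 = r then _ else _)
    rw [take_pre x h1, getD_pre x h2]
  have hcon : ∀ i, i % 2 = r → vr g p r G x i = σ (pre (vr g p r G x) i) := by
    intro i hi
    have h1 : vr g p r G x i = x (p i) := if_pos hi
    have h2 : p i % 2 = r := by rw [hd.par, hi]
    have h3 : ∃ i', p i' = (pre x (p i)).length := ⟨i, by rw [length_pre]⟩
    have h4 : Nat.find h3 = i := by
      have h5 := (Nat.find_spec h3).trans (length_pre x (p i))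
      exact (dat_mono hd).injective h5
    rw [h1, hx (p i) h2]
    change (if h : ∃ i', p i' = (pre x (p i)).length then
      σ ((List.range (Nat.find h)).map (vl' (pre x (p i)))) else _) = _
    rw [dif_pos h3, h4]
    congr 1
    refine List.map_congr_left fun j hj => ?_
    exact hvl i j (List.mem_range.1 hj)
  have hw := hσ (vr g p r G x) hcon
  obtain ⟨i0, hi0⟩ := hone
  refine win_one hr ⟨i0, copy_one hi0 hlab⟩ ?_
  by_cases hR : RR g p c (1 - r) x
  · right
    exact win_tail hB hr (decode2 ⟨i0, hi0⟩ hu hd hr hlab (hG x hR)) hw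
  · exact Or.inl hR

/-- a strategy for the coded set gives a strategy for the tail set -/
theorem cbw2 (hcgs : CgsStmt) (hone : ∃ k, g k = 1) (hu : Unq g p c) (hd : Dat g p c)
    {B : Set (ℕ → Bool)} (hB : Tail B) {r : ℕ} (hr : r < 2) (h : WinsP r (AB g p c B)) :
    WinsP r B := by
  classical
  obtain ⟨τ, hτ⟩ := h
  obtain ⟨G, hG⟩ := hcgs g p c r
  let wl : List Bool → ℕ → Bool := fun l j => l.getD j false
  refine ⟨fun l => vr g p (1 - r) G (PX p c r τ (wl l)) l.length, fun w hw => ?_⟩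
  have hne : ∀ j, j % 2 = r → j % 2 ≠ 1 - r := fun j hj => by omega
  have hv : vr g p (1 - r) G (PX p c r τ w) = w := by
    funext j
    by_cases hj : j % 2 = r
    · rw [hw j hj]
      have h1 : pre (PX p c r τ w) (p (j + 1)) = pre (PX p c r τ (wl (pre w j))) (p (j + 1)) := by
        refine px_congr hd hr _ fun i hi hpi => ?_
        have h2 : i < j + 1 := (dat_mono hd).lt_iff_lt.1 hpi
        have h3 : i < j := by
          rcases Nat.lt_succ_iff_lt_or_eq.1 h2 with h4 | h4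
          · exact h4
          · rw [h4] at hi
            exact absurd hj hi
        exact (getD_pre w h3).symm
      simp only [length_pre]
      unfold vr
      rw [if_neg (hne j hj), if_neg (hne j hj), h1]
    · have h1 : j % 2 = 1 - r := by omega
      unfold vr
      rw [if_pos h1, px_ne hr (by rw [hd.par]; exact hj), yv_free hd]
  have hlab : ∀ n, n % 2 = 1 - r → n ∉ Set.range p → PX p c r τ w n = c n := by
    intro n hn hnp
    rw [px_ne hr (by omega), yv_not hnp]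
  obtain ⟨i0, hi0⟩ := hone
  have hR : RR g p c (1 - r) (PX p c r τ w) := ⟨i0, copy_one hi0 hlab⟩
  obtain ⟨h1, h2⟩ := win_two hr hR (hτ (PX p c r τ w) fun n hn => play_eq r τ _ hn)
  have h1r : 1 - (1 - r) = r := by omega
  have h3 := decode2 ⟨i0, hi0⟩ hu hd (h := 1 - r) (by omega) (G := G) hlab
    (by rw [h1r]; exact hG _ h1)
  rw [hv] at h3
  obtain ⟨m, hm⟩ := h3
  exact win_tail hB hr ⟨m, fun n hn => (hm n hn).symm⟩ h2

/-- The theorem for the countable groups without doubling pairs. -/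
theorem nd_main (cme : CmeStmt) (ctl : CtlStmt) (hcgs : CgsStmt) (G : Subgroup (Equiv.Perm ℕ))
    [Countable G] (hnd : NoDoubling (G : Set (Equiv.Perm ℕ))) :
    ∃ (P Q : Set (ℕ → Bool)) (D : (ℕ → Bool) → (ℕ → Bool)), MeasurableSet P ∧ MeasurableSet Q ∧
      Measurable D ∧ ∀ B : Set (ℕ → Bool),
        (∀ g ∈ G, ∀ x : ℕ → Bool, x ∈ P ∪ (Q ∩ D ⁻¹' B) ↔ (fun n => x (g n)) ∈ P ∪ (Q ∩ D ⁻¹' B)) ∧
        (WinsI (P ∪ (Q ∩ D ⁻¹' B)) ↔ WinsI B) ∧ (WinsII (P ∪ (Q ∩ D ⁻¹' B)) ↔ WinsII B) := by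
  obtain ⟨g', hg'⟩ := exists_surjective_nat G
  set g : ℕ → Equiv.Perm ℕ := fun k => (g' k : Equiv.Perm ℕ) with hgdef
  have hone : ∃ k, g k = 1 := by
    obtain ⟨k, hk⟩ := hg' 1
    exact ⟨k, by simp only [hgdef, hk]; rfl⟩
  have hmul : ∀ i j, ∃ k, g k = g i * g j := fun i j => by
    obtain ⟨k, hk⟩ := hg' (g' i * g' j)
    exact ⟨k, by simp only [hgdef, hk]; rfl⟩
  have hinv : ∀ i, ∃ k, g k = (g i)⁻¹ := fun i => by
    obtain ⟨k, hk⟩ := hg' (g' i)⁻¹
    exact ⟨k, by simp only [hgdef, hk]; rfl⟩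
  have hrange : Set.range g = (G : Set (Equiv.Perm ℕ)) := by
    ext a
    constructor
    · rintro ⟨k, rfl⟩
      exact (g' k).2
    · intro ha
      obtain ⟨k, hk⟩ := hg' ⟨a, ha⟩
      exact ⟨k, by simp only [hgdef, hk]⟩
  obtain ⟨p, c, hd, hf⟩ := csq2 g (by rw [hrange]; exact hnd)
  have hu : Unq g p c := unq hmul hinv hd hf
  obtain ⟨P, Q, D, hP, hQ, hD, hctl⟩ := ctl
  obtain ⟨hR, hDD⟩ := cme g p c
  have hset : ∀ B : Set (ℕ → Bool),
      {x | RR g p c 0 x ∧ (¬ RR g p c 1 x ∨ DD g p c x ∈ P)} ∪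
        ({x | RR g p c 0 x ∧ DD g p c x ∈ Q} ∩ (fun x => D (DD g p c x)) ⁻¹' B) =
      AB g p c (P ∪ (Q ∩ D ⁻¹' B)) := by
    intro B
    ext x
    simp only [AB, Set.mem_union, Set.mem_inter_iff, Set.mem_ofPred_eq, Set.mem_preimage]
    tauto
  refine ⟨{x | RR g p c 0 x ∧ (¬ RR g p c 1 x ∨ DD g p c x ∈ P)},
    {x | RR g p c 0 x ∧ DD g p c x ∈ Q}, fun x => D (DD g p c x), ?_, ?_, ?_, fun B => ?_⟩
  · exact (hR 0).inter ((hR 1).compl.union (hDD hP))
  · exact (hR 0).inter (hDD hQ)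
  · exact hD.comp hDD
  · rw [hset B]
    obtain ⟨ht, hI, hII⟩ := hctl B
    refine ⟨fun h hh x => ?_, ?_, ?_⟩
    · obtain ⟨k, hk⟩ := hg' ⟨h, hh⟩
      have := civ2 hmul hinv hu ht k x
      have hgk : g k = h := by simp only [hgdef, hk]
      rwa [hgk] at this
    · rw [← hI, winsI_iff, winsI_iff]
      exact ⟨cbw2 hcgs hone hu hd ht (by norm_num), cfw2 hcgs hone hu hd ht (by norm_num)⟩
    · rw [← hII, winsII_iff, winsII_iff]
      exact ⟨cbw2 hcgs hone hu hd ht (by norm_num), cfw2 hcgs hone hu hd ht (by norm_num)⟩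

end Pool.Agent.TDV.H71
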