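import Pool.Agent.Helper71_TDV.Nd

/-!
# Squad TDV: three classes of groups without doubling pairs
-/

set_option autoImplicit false

noncomputable section

namespace Pool.Agent.TDV.H71

open scoped Pointwise

/-- the large elements of the residue class `r` modulo two -/
def Gd (r M n : ℕ) : Prop := M ≤ n ∧ n % 2 = r

theorem large_fin (S : Finset (Equiv.Perm ℕ)) (m : ℕ) : ∃ M, ∀ n ≥ M, ∀ s ∈ S, m ≤ s n := by
  classical
  induction S using Finset.induction_on with
  | empty => exact ⟨0, fun n _ s hs => absurd hs (Finset.notMem_empty s)⟩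
  | insert a S _ ih =>
    obtain ⟨M, hM⟩ := ih
    obtain ⟨M', hM'⟩ := H31.perm_large a m
    refine ⟨max M M', fun n hn s hs => ?_⟩
    rcases Finset.mem_insert.1 hs with rfl | hs
    · exact hM' n (le_trans (le_max_right _ _) hn)
    · exact hM n (le_trans (le_max_left _ _) hn) s hs

/-- it is enough that the permutations of every doubling pair agree almost everywhere -/
theorem noDoubling_of_finite (G : Set (Equiv.Perm ℕ))
    (h : ∀ r < 2, ∀ a ∈ G, ∀ b ∈ G, Dbl r a b → ∃ m, ∀ n ≥ m, n % 2 = r → a n = b n) :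
    NoDoubling G := by
  classical
  intro r hr L
  induction L using Finset.induction_on with
  | empty =>
    intro _ m
    exact ⟨2 * m + r, by omega, by omega, fun q hq => absurd hq (Finset.notMem_empty q)⟩
  | insert q L _ ih =>
    intro hL m
    obtain ⟨h1, h2, h3⟩ := hL q (Finset.mem_insert_self _ _)
    obtain ⟨m', hm'⟩ := h r hr q.1 h1 q.2 h2 h3
    obtain ⟨n, hn, hnr, hn2⟩ := ih (fun q' hq' => hL q' (Finset.mem_insert_of_mem hq')) (max m m')
    refine ⟨n, le_trans (le_max_left _ _) hn, hnr, fun q' hq' => ?_⟩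
    rcases Finset.mem_insert.1 hq' with rfl | hq'
    · exact hm' n (le_trans (le_max_right _ _) hn) hnr
    · exact hn2 q' hq'

theorem pow_class {r : ℕ} {a : Equiv.Perm ℕ} (ha : ∃ m, ∀ n ≥ m, n % 2 = r → a n % 2 = r) (j : ℕ) :
    ∃ m, ∀ n ≥ m, n % 2 = r → (a ^ j) n % 2 = r := by
  induction j with
  | zero => exact ⟨0, fun n _ h => by simpa using h⟩
  | succ j ih =>
    obtain ⟨m, hm⟩ := ih
    obtain ⟨m', hm'⟩ := ha
    obtain ⟨M, hM⟩ := H31.perm_large a m
    refine ⟨max m' M, fun n hn hnr => ?_⟩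
    rw [pow_succ, Equiv.Perm.mul_apply]
    exact hm _ (hM n (le_trans (le_max_right _ _) hn)) (hm' n (le_trans (le_max_left _ _) hn) hnr)

/-- Torsion groups have no doubling pairs. -/
theorem nd_torsion (G : Subgroup (Equiv.Perm ℕ)) (h : ∀ a ∈ G, ∃ k > 0, a ^ k = 1) :
    NoDoubling (G : Set (Equiv.Perm ℕ)) := by
  refine noDoubling_of_finite _ fun r hr a ha b hb hd => ?_
  obtain ⟨ha1, ⟨mb, hb1⟩, m3, h3⟩ := hd
  obtain ⟨k, hk, hak⟩ := h a ha
  obtain ⟨m, hm⟩ := pow_class ha1 (k - 1)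
  have hinv : a ^ (k - 1) = a⁻¹ := by
    rw [eq_inv_iff_mul_eq_one, ← pow_succ, Nat.sub_add_cancel hk, hak]
  rw [hinv] at hm
  obtain ⟨M, hM⟩ := H31.perm_large b m
  obtain ⟨M', hM'⟩ := H31.perm_large (a⁻¹ * b) m3
  refine ⟨max mb (max M M'), fun n hn hnr => ?_⟩
  have h1 : mb ≤ n := le_trans (le_max_left _ _) hn
  have h2 : M ≤ n := le_trans (le_trans (le_max_left _ _) (le_max_right _ _)) hn
  have h4 : M' ≤ n := le_trans (le_trans (le_max_right _ _) (le_max_right _ _)) hn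
  have h5 := hM' n h4
  rw [Equiv.Perm.mul_apply] at h5
  have h6 : a⁻¹ (b n) = n :=
    h3 _ h5 n (hm _ (hM n h2) (hb1 n h1 hnr)) hnr (Equiv.apply_symm_apply a (b n))
  have h7 : a (a⁻¹ (b n)) = b n := Equiv.apply_symm_apply a (b n)
  rw [← h7, h6]

/-! ## Growth -/

/-- two disjoint copies from finitely many doubling pairs -/
theorem two_copies (G : Subgroup (Equiv.Perm ℕ)) (r : ℕ) (L : Finset (Equiv.Perm ℕ × Equiv.Perm ℕ)) :
    (∀ q ∈ L, q.1 ∈ G ∧ q.2 ∈ G ∧ Dbl r q.1 q.2) →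
      ∃ (α : Equiv.Perm ℕ) (S : Finset (Equiv.Perm ℕ)) (β : ℕ → ℕ) (M : ℕ),
        α ∈ G ∧ (∀ s ∈ S, s ∈ G) ∧ (∀ n, Gd r M n → α n % 2 = r) ∧
        (∀ n, Gd r M n → (∃ q ∈ L, q.1 n ≠ q.2 n) →
          (∃ s ∈ S, β n = s n) ∧ β n % 2 = r ∧ ∀ n', Gd r M n' → α n' ≠ β n) ∧
        ∀ n n', Gd r M n → Gd r M n' → (∃ q ∈ L, q.1 n ≠ q.2 n) → (∃ q ∈ L, q.1 n' ≠ q.2 n') →
          β n = β n' → n = n' := by
  classical
  induction L using Finset.induction_on with
  | empty =>
    intro _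
    refine ⟨1, ∅, id, 0, G.one_mem, fun s hs => absurd hs (Finset.notMem_empty s),
      fun n hn => hn.2, ?_, ?_⟩
    · rintro n _ ⟨q, hq, _⟩
      exact absurd hq (Finset.notMem_empty q)
    · rintro n n' _ _ ⟨q, hq, _⟩
      exact absurd hq (Finset.notMem_empty q)
  | insert q L _ ih =>
    intro hL
    obtain ⟨α', S', β', M', hα', hS', h1, h2, h3⟩ :=
      ih fun q' hq' => hL q' (Finset.mem_insert_of_mem hq')
    obtain ⟨ha, hb, ⟨ma, hma⟩, ⟨mb, hmb⟩, m3, hm3⟩ := hL q (Finset.mem_insert_self _ _)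
    obtain ⟨M1, hM1⟩ := H31.perm_large α' (max ma m3)
    obtain ⟨M2, hM2⟩ := large_fin S' (max ma m3)
    have hαl : ∀ n, M1 ≤ n → ma ≤ α' n ∧ m3 ≤ α' n := fun n hn =>
      ⟨le_trans (le_max_left _ _) (hM1 n hn), le_trans (le_max_right _ _) (hM1 n hn)⟩
    have hcase : ∀ n, (∃ q' ∈ insert q L, q'.1 n ≠ q'.2 n) → q.1 n = q.2 n →
        ∃ q' ∈ L, q'.1 n ≠ q'.2 n := by
      rintro n ⟨q', hq', hne⟩ he
      rcases Finset.mem_insert.1 hq' with rfl | hq'
      · exact absurd he hne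
      · exact ⟨q', hq', hne⟩
    have hg : ∀ n, Gd r (max (max M' mb) (max M1 M2)) n → Gd r M' n ∧ mb ≤ n ∧ M1 ≤ n ∧ M2 ≤ n := by
      rintro n ⟨h, h'⟩
      refine ⟨⟨?_, h'⟩, ?_, ?_, ?_⟩
      · exact le_trans (le_trans (le_max_left _ _) (le_max_left _ _)) h
      · exact le_trans (le_trans (le_max_right _ _) (le_max_left _ _)) h
      · exact le_trans (le_trans (le_max_left _ _) (le_max_right _ _)) h
      · exact le_trans (le_trans (le_max_right _ _) (le_max_right _ _)) h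
    have hβl : ∀ n, Gd r (max (max M' mb) (max M1 M2)) n → (∃ q' ∈ L, q'.1 n ≠ q'.2 n) →
        ma ≤ β' n ∧ m3 ≤ β' n := by
      intro n hn hq
      obtain ⟨g1, _, _, g4⟩ := hg n hn
      obtain ⟨⟨s, hs, he⟩, _, _⟩ := h2 n g1 hq
      rw [he]
      exact ⟨le_trans (le_max_left _ _) (hM2 n g4 s hs), le_trans (le_max_right _ _) (hM2 n g4 s hs)⟩
    refine ⟨q.1 * α', insert q.2 (S'.image fun s => q.1 * s),
      fun n => if q.1 n ≠ q.2 n then q.2 n else q.1 (β' n), max (max M' mb) (max M1 M2),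
      G.mul_mem ha hα', ?_, ?_, ?_, ?_⟩
    · intro s hs
      rcases Finset.mem_insert.1 hs with rfl | hs
      · exact hb
      · obtain ⟨s', hs', rfl⟩ := Finset.mem_image.1 hs
        exact G.mul_mem ha (hS' s' hs')
    · intro n hn
      obtain ⟨g1, _, g3, _⟩ := hg n hn
      rw [Equiv.Perm.mul_apply]
      exact hma _ (hαl n g3).1 (h1 n g1)
    · intro n hn hq
      obtain ⟨g1, g2, g3, g4⟩ := hg n hn
      by_cases hne : q.1 n ≠ q.2 n
      · simp only [if_pos hne]
        refine ⟨⟨q.2, Finset.mem_insert_self _ _, rfl⟩, hmb n g2 hn.2, fun n' hn' he => ?_⟩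
        obtain ⟨g1', _, g3', _⟩ := hg n' hn'
        rw [Equiv.Perm.mul_apply] at he
        have h5 := hm3 (α' n') (hαl n' g3').2 n (h1 n' g1') hn.2 he
        rw [h5] at he
        exact hne he
      · simp only [if_neg hne]
        rw [not_not] at hne
        have hq' := hcase n hq hne
        obtain ⟨⟨s, hs, he⟩, h5, h6⟩ := h2 n g1 hq'
        refine ⟨⟨q.1 * s, Finset.mem_insert_of_mem (Finset.mem_image.2 ⟨s, hs, rfl⟩), ?_⟩,
          hma _ (hβl n hn hq').1 h5, fun n' hn' he' => ?_⟩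
        · rw [Equiv.Perm.mul_apply, he]
        · rw [Equiv.Perm.mul_apply] at he'
          exact h6 n' (hg n' hn').1 (q.1.injective he')
    · intro n n' hn hn' hq hq' he
      obtain ⟨g1, g2, g3, g4⟩ := hg n hn
      obtain ⟨g1', g2', g3', g4'⟩ := hg n' hn'
      by_cases hne : q.1 n ≠ q.2 n
      · by_cases hne' : q.1 n' ≠ q.2 n'
        · simp only [if_pos hne, if_pos hne'] at he
          exact q.2.injective he
        · simp only [if_pos hne, if_neg hne'] at he
          rw [not_not] at hne'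
          have hq2 := hcase n' hq' hne'
          obtain ⟨_, h5, _⟩ := h2 n' g1' hq2
          have h6 := hm3 (β' n') (hβl n' hn' hq2).2 n h5 hn.2 he.symm
          rw [h6] at he
          exact absurd he.symm hne
      · by_cases hne' : q.1 n' ≠ q.2 n'
        · simp only [if_neg hne, if_pos hne'] at he
          rw [not_not] at hne
          have hq2 := hcase n hq hne
          obtain ⟨_, h5, _⟩ := h2 n g1 hq2
          have h6 := hm3 (β' n) (hβl n hn hq2).2 n' h5 hn'.2 he
          rw [h6] at he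
          exact absurd he hne'
        · simp only [if_neg hne, if_neg hne'] at he
          rw [not_not] at hne hne'
          exact h3 n n' g1 g1' (hcase n hq hne) (hcase n' hq' hne') (q.1.injective he)

open Classical in
/-- Groups whose finitely generated subgroups have subexponential growth have no doubling pairs. -/
theorem nd_growth_aux (G : Subgroup (Equiv.Perm ℕ))
    (h : ∀ S : Finset (Equiv.Perm ℕ), (∀ s ∈ S, s ∈ G) → ∃ m : ℕ, (S ^ m).card < 2 ^ m) :
    NoDoubling (G : Set (Equiv.Perm ℕ)) := by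
  classical
  intro r hr L hL m0
  by_contra hcon
  push Not at hcon
  obtain ⟨α, S, β, M, hα, hS, h1, h2, h3⟩ := two_copies G r L hL
  have hall : ∀ n, Gd r (max m0 M) n → Gd r M n ∧ ∃ q ∈ L, q.1 n ≠ q.2 n := fun n hn =>
    ⟨⟨le_trans (le_max_right _ _) hn.1, hn.2⟩, hcon n (le_trans (le_max_left _ _) hn.1) hn.2⟩
  obtain ⟨m, hm⟩ := h (insert α S) (fun s hs => by
    rcases Finset.mem_insert.1 hs with rfl | hs
    · exact hα
    · exact hS s hs)
  -- a large starting point
  obtain ⟨X, hX⟩ := large_fin ((Finset.range (m + 1)).biUnion fun j => (insert α S) ^ j) (max m0 M)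
  have hx : ∀ j ≤ m, ∀ t ∈ (insert α S) ^ j, max m0 M ≤ t (2 * X + r) := fun j hj t ht =>
    hX _ (by omega) t (Finset.mem_biUnion.2 ⟨j, Finset.mem_range.2 (by omega), ht⟩)
  -- the points
  have key : ∀ j ≤ m, ∃ P : Finset ℕ, P.card = 2 ^ j ∧ (∀ n ∈ P, n % 2 = r) ∧
      ∀ n ∈ P, ∃ t ∈ (insert α S) ^ j, t (2 * X + r) = n := by
    intro j
    induction j with
    | zero =>
      intro _
      refine ⟨{2 * X + r}, by simp, fun n hn => ?_, fun n hn => ?_⟩
      · rw [Finset.mem_singleton.1 hn]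
        omega
      · rw [Finset.mem_singleton.1 hn]
        exact ⟨1, by simp, rfl⟩
    | succ j ih =>
      intro hj
      obtain ⟨P, hP1, hP2, hP3⟩ := ih (by omega)
      have hgd : ∀ n ∈ P, Gd r (max m0 M) n := fun n hn => by
        obtain ⟨t, ht, he⟩ := hP3 n hn
        exact ⟨he ▸ hx j (by omega) t ht, hP2 n hn⟩
      refine ⟨P.image α ∪ P.image β, ?_, fun n hn => ?_, fun n hn => ?_⟩
      · rw [Finset.card_union_of_disjoint, Finset.card_image_of_injective _ α.injective,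
          Finset.card_image_of_injOn, hP1]
        · ring
        · intro n hn n' hn' he
          obtain ⟨a1, a2⟩ := hall n (hgd n hn)
          obtain ⟨b1, b2⟩ := hall n' (hgd n' hn')
          exact h3 n n' a1 b1 a2 b2 he
        · rw [Finset.disjoint_left]
          intro y hy hy'
          obtain ⟨n', hn', rfl⟩ := Finset.mem_image.1 hy
          obtain ⟨n, hn, he⟩ := Finset.mem_image.1 hy'
          obtain ⟨a1, a2⟩ := hall n (hgd n hn)
          exact (h2 n a1 a2).2.2 n' (hall n' (hgd n' hn')).1 he.symm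
      · rcases Finset.mem_union.1 hn with hn | hn
        · obtain ⟨n', hn', rfl⟩ := Finset.mem_image.1 hn
          exact h1 n' (hall n' (hgd n' hn')).1
        · obtain ⟨n', hn', rfl⟩ := Finset.mem_image.1 hn
          obtain ⟨a1, a2⟩ := hall n' (hgd n' hn')
          exact (h2 n' a1 a2).2.1
      · rcases Finset.mem_union.1 hn with hn | hn
        · obtain ⟨n', hn', rfl⟩ := Finset.mem_image.1 hn
          obtain ⟨t, ht, he⟩ := hP3 n' hn'
          refine ⟨α * t, ?_, by rw [Equiv.Perm.mul_apply, he]⟩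
          rw [pow_succ']
          exact Finset.mul_mem_mul (Finset.mem_insert_self _ _) ht
        · obtain ⟨n', hn', rfl⟩ := Finset.mem_image.1 hn
          obtain ⟨t, ht, he⟩ := hP3 n' hn'
          obtain ⟨a1, a2⟩ := hall n' (hgd n' hn')
          obtain ⟨⟨s, hs, hes⟩, _, _⟩ := h2 n' a1 a2
          refine ⟨s * t, ?_, by rw [Equiv.Perm.mul_apply, he, hes]⟩
          rw [pow_succ']
          exact Finset.mul_mem_mul (Finset.mem_insert_of_mem hs) ht
  obtain ⟨P, hP1, _, hP3⟩ := key m le_rfl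
  have hsub : P ⊆ ((insert α S) ^ m).image fun t => t (2 * X + r) := by
    intro n hn
    obtain ⟨t, ht, he⟩ := hP3 n hn
    exact Finset.mem_image.2 ⟨t, ht, he⟩
  have h5 := (Finset.card_le_card hsub).trans Finset.card_image_le
  rw [hP1] at h5
  omega

/-- Groups whose finitely generated subgroups have subexponential growth have no doubling pairs. -/
theorem nd_growth (G : Subgroup (Equiv.Perm ℕ))
    (h : ∀ S : Set (Equiv.Perm ℕ), S.Finite → S ⊆ G → ∃ m : ℕ, (S ^ m).ncard < 2 ^ m) :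
    NoDoubling (G : Set (Equiv.Perm ℕ)) := by
  classical
  refine nd_growth_aux G fun S hS => ?_
  obtain ⟨m, hm⟩ := h (S : Set (Equiv.Perm ℕ)) S.finite_toSet fun s hs => hS s hs
  refine ⟨m, ?_⟩
  rwa [← Finset.coe_pow, Set.ncard_coe_finset] at hm

/-! ## Measures -/

open scoped ENNReal

/-- Groups which preserve finitely additive measures have no doubling pairs. -/
theorem nd_measure (G : Subgroup (Equiv.Perm ℕ))
    (h : ∀ r < 2, ∃ μ : Set ℕ → ℝ≥0∞, (∀ A B, Disjoint A B → μ (A ∪ B) = μ A + μ B) ∧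
      (∀ A, A.Finite → μ A = 0) ∧ (∀ g ∈ G, ∀ A, μ (g '' A) = μ A) ∧
      0 < μ {n | n % 2 = r} ∧ μ {n | n % 2 = r} < ⊤) :
    NoDoubling (G : Set (Equiv.Perm ℕ)) := by
  classical
  intro r hr L hL m0
  obtain ⟨μ, hadd, hfin, hinv, hpos, htop⟩ := h r hr
  have hmono : ∀ A B : Set ℕ, A ⊆ B → μ A ≤ μ B := by
    intro A B hAB
    rw [← Set.union_sdiff_cancel hAB, hadd A (B \ A) Set.disjoint_sdiff_right]
    exact le_self_add
  have hunion : ∀ A B : Set ℕ, μ (A ∪ B) ≤ μ A + μ B := by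
    intro A B
    rw [← Set.union_sdiff_self, hadd A (B \ A) Set.disjoint_sdiff_right]
    exact add_le_add le_rfl (hmono _ _ Set.sdiff_subset)
  have hIio : ∀ m, μ (Set.Iio m) = 0 := fun m => hfin _ (Set.finite_Iio m)
  -- the sets where the permutations of a doubling pair differ are null
  have hnull : ∀ a ∈ G, ∀ b ∈ G, Dbl r a b → μ {n | n % 2 = r ∧ a n ≠ b n} = 0 := by
    rintro a ha b hb ⟨⟨ma, hma⟩, ⟨mb, hmb⟩, m3, hm3⟩
    set E : Set ℕ := {n | n % 2 = r} with hE
    obtain ⟨M, hM⟩ := H31.perm_large (a⁻¹ * b) m3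
    set D : Set ℕ := {n | n % 2 = r ∧ a n ≠ b n} ∩ Set.Ici (max mb M) with hD
    -- the image of `D` under `b` is disjoint from the image of `E` under `a`
    have hdis : Disjoint (a '' (E ∩ Set.Ici ma)) (b '' D) := by
      rw [Set.disjoint_left]
      rintro y ⟨n', hn', rfl⟩ ⟨n, hn, he⟩
      have h1 : M ≤ n := le_trans (le_max_right _ _) hn.2
      have h2 := hM n h1
      have h4 : a⁻¹ (a n') = n' := Equiv.symm_apply_apply a n'
      rw [Equiv.Perm.mul_apply, he, h4] at h2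
      have h3 : n' = n := hm3 n' h2 n hn'.1 hn.1.1 he.symm
      rw [h3] at he
      exact hn.1.2 he.symm
    have hsub : a '' (E ∩ Set.Ici ma) ∪ b '' D ⊆ E := by
      rintro y (⟨n, hn, rfl⟩ | ⟨n, hn, rfl⟩)
      · exact hma n hn.2 hn.1
      · exact hmb n (le_trans (le_max_left _ _) hn.2) hn.1.1
    have h1 := hmono _ _ hsub
    rw [hadd _ _ hdis, hinv a ha, hinv b hb] at h1
    have h2 : μ E ≤ μ (E ∩ Set.Ici ma) := by
      have h3 : E ⊆ (E ∩ Set.Ici ma) ∪ Set.Iio ma := by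
        intro n hn
        by_cases hn2 : ma ≤ n
        · exact Or.inl ⟨hn, hn2⟩
        · exact Or.inr (not_le.1 hn2)
      calc μ E ≤ μ ((E ∩ Set.Ici ma) ∪ Set.Iio ma) := hmono _ _ h3
        _ ≤ μ (E ∩ Set.Ici ma) + μ (Set.Iio ma) := hunion _ _
        _ = μ (E ∩ Set.Ici ma) := by rw [hIio, add_zero]
    have h4 : μ D = 0 := by
      have h5 : μ E + μ D ≤ μ E := le_trans (add_le_add h2 le_rfl) h1
      by_contra h6
      exact absurd h5 (not_le.2 (ENNReal.lt_add_right htop.ne h6))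
    have h7 : {n | n % 2 = r ∧ a n ≠ b n} ⊆ D ∪ Set.Iio (max mb M) := by
      intro n hn
      by_cases hn2 : max mb M ≤ n
      · exact Or.inl ⟨hn, hn2⟩
      · exact Or.inr (not_le.1 hn2)
    have h8 := (hmono _ _ h7).trans (hunion _ _)
    rw [h4, hIio, add_zero] at h8
    exact le_antisymm h8 zero_le
  by_contra hcon
  push Not at hcon
  have hL2 : ∀ L' : Finset (Equiv.Perm ℕ × Equiv.Perm ℕ), L' ⊆ L →
      μ {n | n % 2 = r ∧ ∃ q ∈ L', q.1 n ≠ q.2 n} = 0 := by
    intro L'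
    induction L' using Finset.induction_on with
    | empty =>
      intro _
      refine hfin _ ?_
      have : {n : ℕ | n % 2 = r ∧ ∃ q ∈ (∅ : Finset (Equiv.Perm ℕ × Equiv.Perm ℕ)),
          q.1 n ≠ q.2 n} = ∅ := by
        ext n
        simp
      rw [this]
      exact Set.finite_empty
    | insert q L' _ ih =>
      intro hsub
      obtain ⟨h1, h2, h3⟩ := hL q (hsub (Finset.mem_insert_self _ _))
      have h4 := hnull q.1 h1 q.2 h2 h3
      have h5 := ih fun q' hq' => hsub (Finset.mem_insert_of_mem hq')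
      have h6 : {n | n % 2 = r ∧ ∃ q' ∈ insert q L', q'.1 n ≠ q'.2 n} ⊆
          {n | n % 2 = r ∧ q.1 n ≠ q.2 n} ∪ {n | n % 2 = r ∧ ∃ q' ∈ L', q'.1 n ≠ q'.2 n} := by
        rintro n ⟨hn, q', hq', hne⟩
        rcases Finset.mem_insert.1 hq' with rfl | hq'
        · exact Or.inl ⟨hn, hne⟩
        · exact Or.inr ⟨hn, q', hq', hne⟩
      have h7 := (hmono _ _ h6).trans (hunion _ _)
      rw [h4, h5, add_zero] at h7
      exact le_antisymm h7 zero_le
  have h1 : {n : ℕ | n % 2 = r} ⊆ {n | n % 2 = r ∧ ∃ q ∈ L, q.1 n ≠ q.2 n} ∪ Set.Iio m0 := by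
    intro n hn
    by_cases hn2 : m0 ≤ n
    · exact Or.inl ⟨hn, hcon n hn2 hn⟩
    · exact Or.inr (not_le.1 hn2)
  have h2 := (hmono _ _ h1).trans (hunion _ _)
  rw [hL2 L (Finset.Subset.refl _), hIio, add_zero] at h2
  exact absurd hpos (not_lt.2 h2)

end Pool.Agent.TDV.H71
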