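import Pool.Agent.TDV.Stmts

/-!
# Squad TDV, module TUR: `K` is monotone for Turing reducibility
-/

set_option autoImplicit false

noncomputable section

namespace Pool.Agent.TDV.H71

open Pool.Agent.Helper25TD Pool.Agent.Helper56TB

theorem tur_f (huni : UniStmt) {G : List Bool → ℕ → Option ℕ} (hG : Primrec₂ G) :
    Partrec (fun q : (List Bool × List Bool) × List Bool =>
      ((word G q.2 (Nat.unpair q.2.length).1 : Option (List Bool)) : Part (List Bool)).bind
        fun w => QU q.1.1 w) := by
  refine Partrec.bind ?_ ?_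
  · refine Computable.ofOption ?_
    refine Primrec.to_comp ?_
    exact (primrec_word hG).comp Primrec.snd
      (Primrec.fst.comp (Primrec.unpair.comp (Primrec.list_length.comp Primrec.snd)))
  · have h1 : Computable fun t : ((List Bool × List Bool) × List Bool) × List Bool =>
        (t.1.1.1, t.2) :=
      Computable.pair (Computable.fst.comp (Computable.fst.comp Computable.fst)) Computable.snd
    have h2 : Partrec fun q : List Bool × List Bool => QU q.1 q.2 := huni
    have h3 := Partrec.comp h2 h1
    exact h3

/-- TUR -/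
theorem tur (huni : UniStmt) (hksp : KspStmt) (hlmg : LmgStmt) : TurStmt := by
  intro y y' h
  obtain ⟨G, hG, hA⟩ := exists_approx y' (RecursiveIn.iff_nat.1 h)
  refine hlmg y' (K y) _ (tur_f huni hG) fun n => ?_
  rw [hksp.2.1 y n]
  constructor
  · rintro ⟨j, hj⟩
    obtain ⟨N0, hN0⟩ := word_complete hA j
    refine ⟨Nat.pair j N0, ?_⟩
    have h1 : word G (pre y' (Nat.pair j N0)) (Nat.unpair (pre y' (Nat.pair j N0)).length).1 =
        some (pre y j) := by
      rw [length_pre, Nat.unpair_pair]
      exact hN0 _ (Nat.right_le_pair j N0)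
    refine Part.mem_bind_iff.2 ⟨pre y j, ?_, hj⟩
    exact Part.mem_ofOption.2 h1
  · rintro ⟨N, hN⟩
    obtain ⟨w, hw, h1⟩ := Part.mem_bind_iff.1 hN
    have h2 : word G (pre y' N) (Nat.unpair (pre y' N).length).1 = some w := Part.mem_ofOption.1 hw
    have h3 := word_sound hA _ _ h2
    exact ⟨_, h3 ▸ h1⟩

end Pool.Agent.TDV.H71
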