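import Pool.Agent.TDV.Stmts

/-!
# Squad TDV, module TVI: Turing invariant sets are invariant under `V`
-/

set_option autoImplicit false

noncomputable section

namespace Pool.Agent.TDV.H71

open Pool.Agent.Helper25TD Pool.Agent.Helper56TB

/-- the elements of `V` are primitive recursive -/
theorem primrec_of_isV {π : Equiv.Perm ℕ} (h : IsV π) : Primrec π := by
  classical
  obtain ⟨N, hN⟩ := h
  choose! k i hki using hN
  have h1 : ∀ n, π n = ((List.range (2 ^ N)).map fun r => 2 ^ k r).getD (n % 2 ^ N) 0 * (n / 2 ^ N) +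
      ((List.range (2 ^ N)).map i).getD (n % 2 ^ N) 0 := by
    intro n
    have hr : n % 2 ^ N < 2 ^ N := Nat.mod_lt _ (by positivity)
    have h2 : ((List.range (2 ^ N)).map fun r => 2 ^ k r).getD (n % 2 ^ N) 0 =
        2 ^ k (n % 2 ^ N) := by
      rw [List.getD_eq_getElem _ _ (by simpa using hr)]
      simp
    have h3 : ((List.range (2 ^ N)).map i).getD (n % 2 ^ N) 0 = i (n % 2 ^ N) := by
      rw [List.getD_eq_getElem _ _ (by simpa using hr)]
      simp
    rw [h2, h3, ← hki _ hr (n / 2 ^ N), Nat.div_add_mod]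
  refine Primrec.of_eq ?_ fun n => (h1 n).symm
  have hmod : Primrec fun n : ℕ => n % 2 ^ N := Primrec.nat_mod.comp Primrec.id (Primrec.const _)
  have hdiv : Primrec fun n : ℕ => n / 2 ^ N := Primrec.nat_div.comp Primrec.id (Primrec.const _)
  exact Primrec.nat_add.comp
    (Primrec.nat_mul.comp ((Primrec.list_getD 0).comp (Primrec.const _) hmod) hdiv)
    ((Primrec.list_getD 0).comp (Primrec.const _) hmod)

/-- TVI -/
theorem tvi : TviStmt := by
  intro A hA π hπ x
  have hp := primrec_of_isV hπ
  have h1 : TLE (fun n => x (π n)) x := TLE.sub hp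
  have h2 : TLE x (fun n => x (π n)) := by
    have h3 : TR (fun n => x (π n)) π.symm := by
      refine TR.rfind (f := fun m => (π (Nat.unpair m).2 - (Nat.unpair m).1) +
        ((Nat.unpair m).1 - π (Nat.unpair m).2)) ?_ ?_ ?_
      · refine TR.prim ?_
        have h4 : Primrec fun m : ℕ => π (Nat.unpair m).2 :=
          hp.comp (Primrec.snd.comp Primrec.unpair)
        have h5 : Primrec fun m : ℕ => (Nat.unpair m).1 := Primrec.fst.comp Primrec.unpair
        exact Primrec.nat_add.comp (Primrec.nat_sub.comp h4 h5) (Primrec.nat_sub.comp h5 h4)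
      · intro a
        simp
      · intro a n hn
        simp only [Nat.unpair_pair]
        intro h0
        have h6 : π n = a := by omega
        have h7 : n = π.symm a := by rw [← h6, Equiv.symm_apply_apply]
        omega
    refine TR.to_le ?_
    have h4 := (TR.of_le (TLE.refl fun n => x (π n))).comp h3
    refine Nat.RecursiveIn.of_eq h4 fun n => ?_
    simp
  exact ⟨hA _ _ h2 h1, hA _ _ h1 h2⟩

end Pool.Agent.TDV.H71
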